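import Pool.Agent.H21.CUT.Defs

/-!
Windows: filling holes, components, the circle lemma, lower bound of the length.
-/

set_option autoImplicit false

open MeasureTheory Metric Set
open scoped ENNReal

namespace Pool.Agent.H21.CUT

/-- a connected set which meets an open set and its complement meets the boundary -/
theorem meets_frontier {S V : Set ℂ} (hS : IsPreconnected S) (hV : IsOpen V)
    (h1 : (S ∩ V).Nonempty) (h2 : ∃ u ∈ S, u ∉ V) : (S ∩ frontier V).Nonempty := by
  by_contra hcon
  rw [not_nonempty_iff_eq_empty, eq_empty_iff_forall_notMem] at hcon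
  have h3 : ∀ u ∈ S, u ∉ V → u ∉ closure V := by
    intro u hu huV hcl
    apply hcon u
    refine ⟨hu, ?_⟩
    rw [hV.frontier_eq]
    exact ⟨hcl, huV⟩
  obtain ⟨u, hu, huV⟩ := h2
  obtain ⟨y, _, hy1, hy2⟩ := hS V (closure V)ᶜ hV isClosed_closure.isOpen_compl
    (fun y hy => by
      by_cases hyV : y ∈ V
      · exact Or.inl hyV
      · exact Or.inr (h3 y hy hyV)) h1 ⟨u, hu, h3 u hu huV⟩
  exact hy2 (subset_closure hy1)

theorem full_ball (c : ℂ) (r : ℝ) : Full (ball c r) := by
  intro O hO hb hf w hw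
  obtain ⟨z, hz, hmax⟩ := Complex.exists_mem_frontier_isMaxOn_norm (f := fun z : ℂ => z - c)
    hb ⟨w, hw⟩ ((differentiable_id.sub_const c).diffContOnCl)
  have h1 := hmax (subset_closure hw)
  have h2 := hf hz
  simp only [Function.comp, mem_ofPred_eq] at h1
  rw [mem_ball, dist_eq_norm] at h2 ⊢
  exact h1.trans_lt h2

theorem full_inter {V W : Set ℂ} (hV : Full V) (hW : Full W) : Full (V ∩ W) :=
  fun O hO hb hf => subset_inter (hV O hO hb (hf.trans inter_subset_left))
    (hW O hO hb (hf.trans inter_subset_right))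

theorem subset_fill (E : Set ℂ) : E ⊆ fill E := subset_union_left

theorem fill_subset {E V : Set ℂ} (hE : E ⊆ V) (hV : Full V) : fill E ⊆ V := by
  rintro w (hw | ⟨O, ⟨h1, h2, h3⟩, hw⟩)
  · exact hE hw
  · exact hV O h1 h2 (h3.trans hE) hw

theorem isOpen_fill {E : Set ℂ} (hE : IsOpen E) : IsOpen (fill E) :=
  hE.union (isOpen_sUnion fun _ h => h.1)

theorem bdd_fill {E : Set ℂ} (hE : Bornology.IsBounded E) : Bornology.IsBounded (fill E) := by
  obtain ⟨r, hr⟩ := hE.subset_ball (0 : ℂ)
  exact isBounded_ball.subset (fill_subset hr (full_ball 0 r))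

/-- a bounded open nonempty set has a boundary point -/
theorem frontier_nonempty {C : Set ℂ} (hb : Bornology.IsBounded C) (hne : C.Nonempty) :
    (frontier C).Nonempty := by
  by_contra h
  rw [not_nonempty_iff_eq_empty, ← isClopen_iff_frontier_eq_empty, isClopen_iff] at h
  rcases h with h | h
  · exact hne.ne_empty h
  · rw [h] at hb
    exact NormedSpace.unbounded_univ ℝ ℂ hb

/-- the boundary of a component of an open set lies in the boundary of the set -/
theorem frontier_comp_subset {A : Set ℂ} (hA : IsOpen A) (x : ℂ) :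
    frontier (connectedComponentIn A x) ⊆ frontier A := by
  intro b hb
  have hC : IsOpen (connectedComponentIn A x) := hA.connectedComponentIn
  have hbC : b ∉ connectedComponentIn A x := fun h => by
    rw [hC.frontier_eq] at hb
    exact hb.2 h
  have hcl : b ∈ closure (connectedComponentIn A x) := frontier_subset_closure hb
  have hclA : b ∈ closure A := closure_mono (connectedComponentIn_subset A x) hcl
  rw [hA.frontier_eq]
  refine ⟨hclA, fun hbA => ?_⟩
  have h1 : IsOpen (connectedComponentIn A b) := hA.connectedComponentIn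
  have h2 : b ∈ connectedComponentIn A b := mem_connectedComponentIn hbA
  obtain ⟨y, hy1, hy2⟩ := mem_closure_iff.1 hcl _ h1 h2
  have h3 := connectedComponentIn_eq hy1
  have h4 := connectedComponentIn_eq hy2
  apply hbC
  rw [h4, ← h3]
  exact h2

theorem conn_fill {E : Set ℂ} (hE : IsOpen E) (hc : IsConnected E) : IsConnected (fill E) := by
  obtain ⟨x, hx⟩ := hc.nonempty
  refine ⟨⟨x, subset_fill E hx⟩, isPreconnected_of_forall x ?_⟩
  rintro y (hy | ⟨O, ⟨h1, h2, h3⟩, hy⟩)
  · exact ⟨E, subset_fill E, hx, hy, hc.isPreconnected⟩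
  · have hCo : IsOpen (connectedComponentIn O y) := h1.connectedComponentIn
    have hCs := connectedComponentIn_subset O y
    have hyC : y ∈ connectedComponentIn O y := mem_connectedComponentIn hy
    obtain ⟨b, hb⟩ := frontier_nonempty (h2.subset hCs) ⟨y, hyC⟩
    have hbE : b ∈ E := h3 (frontier_comp_subset h1 y hb)
    obtain ⟨u, hu1, hu2⟩ := mem_closure_iff.1 (frontier_subset_closure hb) E hE hbE
    refine ⟨E ∪ connectedComponentIn O y, union_subset (subset_fill E) ?_, Or.inl hx, Or.inr hyC,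
      hc.isPreconnected.union' ⟨u, hu1, hu2⟩ isPreconnected_connectedComponentIn⟩
    exact hCs.trans (fun w hw => Or.inr ⟨O, ⟨h1, h2, h3⟩, hw⟩)

theorem full_fill {E : Set ℂ} (hE : IsOpen E) : Full (fill E) := by
  intro O hO hb hf w hw
  have hcomp : IsCompact (frontier O) :=
    Metric.isCompact_of_isClosed_isBounded isClosed_frontier
      (hb.closure.subset frontier_subset_closure)
  -- finitely many of the sets
  obtain ⟨T, hT1, hT2, hT3⟩ := hcomp.elim_finite_subcover_image
    (b := {O' : Set ℂ | IsOpen O' ∧ Bornology.IsBounded O' ∧ frontier O' ⊆ E})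
    (c := fun O' => E ∪ O') (fun O' h => hE.union h.1) (by
      intro u hu
      rcases hf hu with h | ⟨O', h1, h2⟩
      · exact mem_iUnion₂.2 ⟨∅, ⟨isOpen_empty, Bornology.isBounded_empty, by simp⟩, Or.inl h⟩
      · exact mem_iUnion₂.2 ⟨O', h1, Or.inr h2⟩)
  set G : Set ℂ := O ∪ ⋃₀ T with hG
  have hGo : IsOpen G := hO.union (isOpen_sUnion fun O' h => (hT1 h).1)
  have hGb : Bornology.IsBounded G :=
    hb.union ((Bornology.isBounded_sUnion hT2).2 fun O' h => (hT1 h).2.1)
  have hGf : frontier G ⊆ E := by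
    intro u hu
    rw [hGo.frontier_eq] at hu
    obtain ⟨hu1, hu2⟩ := hu
    have hcl : closure G = closure O ∪ ⋃ O' ∈ T, closure O' := by
      rw [hG, closure_union, sUnion_eq_biUnion, hT2.closure_biUnion]
    rw [hcl] at hu1
    rcases hu1 with h | h
    · have h1 : u ∈ frontier O := by
        rw [hO.frontier_eq]
        exact ⟨h, fun h' => hu2 (Or.inl h')⟩
      obtain ⟨O', h2, h3⟩ := mem_iUnion₂.1 (hT3 h1)
      rcases h3 with h3 | h3
      · exact h3
      · exact absurd (Or.inr ⟨O', h2, h3⟩) hu2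
    · obtain ⟨O', h2, h3⟩ := mem_iUnion₂.1 h
      apply (hT1 h2).2.2
      rw [(hT1 h2).1.frontier_eq]
      exact ⟨h3, fun h' => hu2 (Or.inr ⟨O', h2, h'⟩)⟩
  exact Or.inr ⟨G, ⟨hGo, hGb, hGf⟩, Or.inl hw⟩

theorem frontier_fill_subset {E : Set ℂ} (hE : IsOpen E) : frontier (fill E) ⊆ frontier E := by
  intro b hb
  have hb1 : b ∉ fill E := fun h => by
    rw [(isOpen_fill hE).frontier_eq] at hb
    exact hb.2 h
  have hb2 : b ∈ closure (fill E) := frontier_subset_closure hb
  rw [hE.frontier_eq]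
  refine ⟨?_, fun h => hb1 (subset_fill E h)⟩
  rw [Metric.mem_closure_iff]
  intro ε hε
  obtain ⟨y, hy, hyb⟩ := Metric.mem_closure_iff.1 hb2 ε hε
  rcases hy with hy | ⟨O, ⟨h1, h2, h3⟩, hy⟩
  · exact ⟨y, hy, hyb⟩
  · have hbO : b ∉ O := fun h => hb1 (Or.inr ⟨O, ⟨h1, h2, h3⟩, h⟩)
    have hpre : IsPreconnected (ball b ε) := (convex_ball b ε).isPreconnected
    obtain ⟨u, hu1, hu2⟩ := meets_frontier hpre h1
      ⟨y, by rwa [mem_ball, dist_comm], hy⟩ ⟨b, mem_ball_self hε, hbO⟩
    exact ⟨u, h3 hu2, by rw [dist_comm]; exact hu1⟩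

/-- the filled component of `x` in a bounded open set is a window -/
theorem window_fill {P A : Set ℂ} (hA : IsOpen A) (hb : Bornology.IsBounded A) {x : ℂ}
    (hx : x ∈ A) (hoff : ∀ w ∈ frontier (fill (connectedComponentIn A x)), w ∉ P) :
    Window P (fill (connectedComponentIn A x)) where
  isOpen := isOpen_fill hA.connectedComponentIn
  conn := conn_fill hA.connectedComponentIn
    ⟨⟨x, mem_connectedComponentIn hx⟩, isPreconnected_connectedComponentIn⟩
  bdd := bdd_fill (hb.subset (connectedComponentIn_subset A x))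
  full := full_fill hA.connectedComponentIn
  off := Set.disjoint_left.2 hoff

theorem frontier_fill_comp {A : Set ℂ} (hA : IsOpen A) (x : ℂ) :
    frontier (fill (connectedComponentIn A x)) ⊆ frontier A :=
  (frontier_fill_subset hA.connectedComponentIn).trans (frontier_comp_subset hA x)

/-- the boundary of a filled component of `V ∩ W` -/
theorem frontier_fill_inter {V W : Set ℂ} (hV : IsOpen V) (hW : IsOpen W) (x : ℂ) :
    frontier (fill (connectedComponentIn (V ∩ W) x)) ⊆
      (frontier V ∩ closure W) ∪ (V ∩ frontier W) := by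
  intro w hw
  have h1 := frontier_inter_subset V W (frontier_fill_comp (hV.inter hW) x hw)
  rcases h1 with h | ⟨h2, h3⟩
  · exact Or.inl h
  · by_cases h4 : w ∈ V
    · exact Or.inr ⟨h4, h3⟩
    · exact Or.inl ⟨by rw [hV.frontier_eq]; exact ⟨h2, h4⟩, frontier_subset_closure h3⟩

/-- the circle lemma -/
theorem circle {P V : Set ℂ} (hV : Window P V) {b : ℂ} (hb : b ∈ frontier V) {s : ℝ} (hs : 0 < s)
    {z : ℂ} (hz : z ∈ V) (hzs : s < dist z b) : ∃ w ∈ frontier V, dist w b = s := by
  have hsph : IsPreconnected (sphere b s) := by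
    have h : 1 < Module.rank ℝ ℂ := by
      rw [Complex.rank_real_complex]
      exact Cardinal.one_lt_two
    exact (isConnected_sphere h b hs.le).isPreconnected
  obtain ⟨v, hv, hvb⟩ := Metric.mem_closure_iff.1 (frontier_subset_closure hb) s hs
  rw [dist_comm] at hvb
  obtain ⟨w, hw, hws⟩ := hV.conn.isPreconnected.intermediate_value hv hz
    (f := fun w => dist w b) (by fun_prop) ⟨hvb.le, hzs.le⟩
  have hnot : ∃ u ∈ sphere b s, u ∉ V := by
    by_contra hcon
    push Not at hcon
    have h1 : ball b s ⊆ V := by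
      apply hV.full _ isOpen_ball isBounded_ball
      rw [frontier_ball b hs.ne']
      exact hcon
    have h2 : b ∈ V := h1 (mem_ball_self hs)
    rw [hV.isOpen.frontier_eq] at hb
    exact hb.2 h2
  obtain ⟨u, hu1, hu2⟩ := hnot
  obtain ⟨y, hy1, hy2⟩ := meets_frontier hsph hV.isOpen ⟨w, hws, hw⟩ ⟨u, hu1, hu2⟩
  exact ⟨y, hy2, hy1⟩

/-- lower bound of the Hausdorff measure of a set which meets many circles -/
theorem le_hausdorff {S : Set ℂ} {b : ℂ} {R : ℝ}
    (h : ∀ s : ℝ, 0 < s → s < R → ∃ w ∈ S, dist w b = s) :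
    ENNReal.ofReal R ≤ (Measure.hausdorffMeasure 1 : Measure ℂ) S := by
  have h1 := (LipschitzWith.dist_left b).hausdorffMeasure_image_le (d := 1) zero_le_one S
  rw [hausdorffMeasure_real] at h1
  have h2 : Ioo (0 : ℝ) R ⊆ (fun w => dist w b) '' S := by
    rintro s ⟨hs1, hs2⟩
    obtain ⟨w, hw, hws⟩ := h s hs1 hs2
    exact ⟨w, hw, hws⟩
  have h3 := measure_mono (μ := volume) h2
  rw [Real.volume_Ioo, sub_zero] at h3
  refine h3.trans (h1.trans ?_)
  simp

/-- length of the boundary of a window in a disc centred on the boundary -/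
theorem le_hausdorff_frontier {P V : Set ℂ} (hV : Window P V) {b : ℂ} (hb : b ∈ frontier V)
    {R : ℝ} {z : ℂ} (hz : z ∈ V) (hzs : R ≤ dist z b) :
    ENNReal.ofReal R ≤ (Measure.hausdorffMeasure 1 : Measure ℂ) (frontier V ∩ ball b R) := by
  apply le_hausdorff (b := b)
  intro s hs1 hs2
  obtain ⟨w, hw, hws⟩ := circle hV hb hs1 hz (hs2.trans_le hzs)
  exact ⟨w, ⟨hw, by rw [mem_ball, hws]; exact hs2⟩, hws⟩

/-- the length of a circle -/
theorem hausdorff_sphere_le (c : ℂ) {r : ℝ} (hr : 0 ≤ r) :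
    (Measure.hausdorffMeasure 1 : Measure ℂ) (sphere c r) ≤ ENNReal.ofReal (2 * Real.pi * r) := by
  have h1 := (lipschitzWith_circleMap c r).hausdorffMeasure_image_le (d := 1) zero_le_one
    (Ioc 0 (2 * Real.pi))
  rw [hausdorffMeasure_real, Real.volume_Ioc, sub_zero] at h1
  have h2 : sphere c r ⊆ circleMap c r '' Ioc 0 (2 * Real.pi) := by
    rw [image_circleMap_Ioc, abs_of_nonneg hr]
  refine (measure_mono h2).trans (h1.trans (le_of_eq ?_))
  rw [ENNReal.rpow_one, mul_comm (2 * Real.pi) r, ENNReal.ofReal_mul hr]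
  congr 1
  rw [Real.nnabs_of_nonneg hr]
  rfl

/-- a point of `V` has a boundary point at distance at most the inradius -/
theorem near_frontier {V : Set ℂ} (hV : IsOpen V) (hb : Bornology.IsBounded V) {η : ℝ}
    (h : ∀ c r, ball c r ⊆ V → r ≤ η) {v : ℂ} (hv : v ∈ V) : ∃ b ∈ frontier V, dist v b ≤ η := by
  have hne : (Vᶜ).Nonempty := by
    by_contra hcon
    rw [not_nonempty_iff_eq_empty, compl_empty_iff] at hcon
    rw [hcon] at hb
    exact NormedSpace.unbounded_univ ℝ ℂ hb
  obtain ⟨b, hbV, hbd⟩ := hV.isClosed_compl.exists_infDist_eq_dist hne v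
  have h1 : ball v (dist v b) ⊆ V := by
    intro w hw
    by_contra hcon
    have h2 := infDist_le_dist_of_mem (x := v) (s := Vᶜ) hcon
    rw [mem_ball, dist_comm] at hw
    linarith
  refine ⟨b, ?_, h _ _ h1⟩
  rw [hV.frontier_eq]
  refine ⟨?_, hbV⟩
  have hne' : dist v b ≠ 0 := fun h0 => by
    rw [dist_eq_zero] at h0
    exact hbV (h0 ▸ hv)
  have h3 : b ∈ closure (ball v (dist v b)) := by
    rw [closure_ball v hne', mem_closedBall, dist_comm]
  exact closure_mono h1 h3

end Pool.Agent.H21.CUT
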