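import Pool.Agent.H21.CUT.Lat

/-!
Counting lemmas for the cut lemma.
-/

set_option autoImplicit false

open MeasureTheory Metric Set
open scoped ENNReal

namespace Pool.Agent.H21.CUT

theorem sum_overlap {η : ℝ} (hη : 0 < η) (μ : Measure ℂ) {B : Set ℂ}
    (T : Finset (ℤ × ℤ)) : ∑ q ∈ T, μ (closedBall (pt η q) (4 * η) ∩ B) ≤ 81 * μ B := by
  have h1 : ∀ q : ℤ × ℤ, μ (closedBall (pt η q) (4 * η) ∩ B) =
      ∫⁻ w in B, (closedBall (pt η q) (4 * η)).indicator (fun _ => (1 : ℝ≥0∞)) w ∂μ := by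
    intro q
    rw [lintegral_indicator_const isClosed_closedBall.measurableSet, one_mul,
      Measure.restrict_apply isClosed_closedBall.measurableSet]
  calc ∑ q ∈ T, μ (closedBall (pt η q) (4 * η) ∩ B)
      = ∑ q ∈ T, ∫⁻ w in B, (closedBall (pt η q) (4 * η)).indicator
          (fun _ => (1 : ℝ≥0∞)) w ∂μ := Finset.sum_congr rfl fun q _ => h1 q
    _ = ∫⁻ w in B, ∑ q ∈ T, (closedBall (pt η q) (4 * η)).indicator
          (fun _ => (1 : ℝ≥0∞)) w ∂μ := by
        rw [lintegral_finset_sum]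
        intro q _
        exact (measurable_const).indicator isClosed_closedBall.measurableSet
    _ ≤ ∫⁻ _ in B, 81 ∂μ := by
        apply lintegral_mono
        intro w
        classical
        have h2 : ∑ q ∈ T, (closedBall (pt η q) (4 * η)).indicator (fun _ => (1 : ℝ≥0∞)) w =
            ((T.filter fun q => dist w (pt η q) ≤ 4 * η).card : ℝ≥0∞) := by
          rw [Finset.card_filter]
          push_cast
          apply Finset.sum_congr rfl
          intro q _
          simp only [indicator, mem_closedBall]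
        have h3 : (T.filter fun q => dist w (pt η q) ≤ 4 * η).card ≤ 81 :=
          card_near hη w _ fun q hq => (Finset.mem_filter.1 hq).2
        show ∑ q ∈ T, (closedBall (pt η q) (4 * η)).indicator (fun _ => (1 : ℝ≥0∞)) w ≤ 81
        rw [h2]
        exact_mod_cast h3
    _ = 81 * μ B := by rw [lintegral_const, Measure.restrict_apply_univ]

theorem growth (N : ℕ) (hN : 1 ≤ N) (m : ℕ → ℕ)
    (h : ∀ k ≤ N, ∑ j ∈ Finset.Ioc k (2 * N), m j ≤ 25000 * m k) (h1 : 1 ≤ m (2 * N)) :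
    (1 + 1 / 25000 : ℝ) ^ N ≤ ((∑ j ∈ Finset.Ioc 0 (2 * N), m j : ℕ) : ℝ) := by
  have key : ∀ k ≤ N, (1 + 1 / 25000 : ℝ) ^ k ≤
      ((∑ j ∈ Finset.Ioc (N - k) (2 * N), m j : ℕ) : ℝ) := by
    intro k
    induction k with
    | zero =>
      intro _
      rw [pow_zero, Nat.sub_zero]
      have h2 : m (2 * N) ≤ ∑ j ∈ Finset.Ioc N (2 * N), m j :=
        Finset.single_le_sum (f := m) (fun _ _ => Nat.zero_le _)
          (Finset.mem_Ioc.2 ⟨by omega, le_refl _⟩)
      exact_mod_cast h1.trans h2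
    | succ k ih =>
      intro hk
      have h2 := ih (by omega)
      have h3 := h (N - k) (by omega)
      have h4 : ∑ j ∈ Finset.Ioc (N - (k + 1)) (2 * N), m j =
          m (N - k) + ∑ j ∈ Finset.Ioc (N - k) (2 * N), m j := by
        have h5 : Finset.Ioc (N - (k + 1)) (2 * N) = insert (N - k) (Finset.Ioc (N - k) (2 * N)) := by
          ext j
          simp only [Finset.mem_Ioc, Finset.mem_insert]
          omega
        rw [h5, Finset.sum_insert (by simp)]
      rw [h4, pow_succ]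
      have h6 : ((∑ j ∈ Finset.Ioc (N - k) (2 * N), m j : ℕ) : ℝ) ≤ 25000 * (m (N - k) : ℝ) := by
        exact_mod_cast h3
      push_cast at h2 h6 ⊢
      nlinarith
  have := key N le_rfl
  rwa [Nat.sub_self] at this

theorem exists_N (A : ℝ) : ∃ N : ℕ, 1 ≤ N ∧ (A * (2 * N + 1)) ^ 2 < (1 + 1 / 25000 : ℝ) ^ N := by
  have h1 := tendsto_pow_const_div_const_pow_of_one_lt 2 (r := (1 + 1 / 25000 : ℝ)) (by norm_num)
  have hpos : (0 : ℝ) < 1 / (9 * A ^ 2 + 1) := by positivity
  obtain ⟨N, hN1, hN2⟩ := ((h1.eventually (gt_mem_nhds hpos)).and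
    (Filter.eventually_ge_atTop 1)).exists
  refine ⟨N, hN2, ?_⟩
  have hr : (0 : ℝ) < (1 + 1 / 25000 : ℝ) ^ N := by positivity
  rw [div_lt_div_iff₀ hr (by positivity), one_mul] at hN1
  have hN3 : (1 : ℝ) ≤ N := by exact_mod_cast hN2
  have h2 : (A * (2 * N + 1)) ^ 2 ≤ 9 * A ^ 2 * (N : ℝ) ^ 2 := by
    have h3 : (2 * (N : ℝ) + 1) ^ 2 ≤ 9 * (N : ℝ) ^ 2 := by nlinarith
    calc (A * (2 * N + 1)) ^ 2 = A ^ 2 * (2 * (N : ℝ) + 1) ^ 2 := by ring
      _ ≤ A ^ 2 * (9 * (N : ℝ) ^ 2) := mul_le_mul_of_nonneg_left h3 (sq_nonneg A)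
      _ = 9 * A ^ 2 * (N : ℝ) ^ 2 := by ring
  have h4 : 0 < (N : ℝ) ^ 2 := by positivity
  nlinarith

/-- the cut curve is short -/
theorem cut_curve_le {P Q V : Set ℂ} {d η s : ℝ} (hd : 0 < d) (hη : 0 < η) (hV : IsOpen V)
    (hcol : ∀ w, d ≤ infDist w Q → infDist w Q ≤ 2 * d → d ≤ infDist w P)
    (hs1 : d ≤ s - η) (hs2 : s + 2 * η ≤ 2 * d) (hQ : IsCompact Q) (hne : Q.Nonempty)
    (ρ : ℂ → ℝ≥0∞) (hup : ∀ w ∉ P, ρ w ≤ ENNReal.ofReal (4 / infDist w P))
    (T : Finset (ℤ × ℤ))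
    (hT : ∀ w ∈ V ∩ frontier (Wd Q η s), ∃ q ∈ T, dist w (pt η q) = 2 * η) :
    ∫⁻ w in V ∩ frontier (Wd Q η s), ρ w ∂(Measure.hausdorffMeasure 1 : Measure ℂ) ≤
      ENNReal.ofReal (4 / d) * (T.card * ENNReal.ofReal (2 * Real.pi * (2 * η))) := by
  have hmeas : MeasurableSet (V ∩ frontier (Wd Q η s)) :=
    hV.measurableSet.inter isClosed_frontier.measurableSet
  calc ∫⁻ w in V ∩ frontier (Wd Q η s), ρ w ∂(Measure.hausdorffMeasure 1 : Measure ℂ)
      ≤ ∫⁻ _ in V ∩ frontier (Wd Q η s), ENNReal.ofReal (4 / d)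
          ∂(Measure.hausdorffMeasure 1 : Measure ℂ) := by
        apply setLIntegral_mono' hmeas
        rintro w ⟨_, hw⟩
        obtain ⟨_, _, _, _, h1, h2⟩ := frontier_Wd hQ hne hη hw
        have h3 := hcol w (by linarith) (by linarith)
        have h4 : w ∉ P := fun h => by
          rw [infDist_zero_of_mem h] at h3
          linarith
        refine (hup w h4).trans (ENNReal.ofReal_le_ofReal ?_)
        exact div_le_div_of_nonneg_left (by norm_num) hd h3
    _ = ENNReal.ofReal (4 / d) * (Measure.hausdorffMeasure 1 : Measure ℂ)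
          (V ∩ frontier (Wd Q η s)) := by rw [setLIntegral_const]
    _ ≤ ENNReal.ofReal (4 / d) * (T.card * ENNReal.ofReal (2 * Real.pi * (2 * η))) := by
        gcongr
        calc (Measure.hausdorffMeasure 1 : Measure ℂ) (V ∩ frontier (Wd Q η s))
            ≤ (Measure.hausdorffMeasure 1 : Measure ℂ) (⋃ q ∈ T, sphere (pt η q) (2 * η)) := by
              apply measure_mono
              intro w hw
              obtain ⟨q, hq, hd⟩ := hT w hw
              exact mem_iUnion₂.2 ⟨q, hq, hd⟩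
          _ ≤ ∑ q ∈ T, (Measure.hausdorffMeasure 1 : Measure ℂ) (sphere (pt η q) (2 * η)) :=
              measure_biUnion_finset_le _ _
          _ ≤ ∑ _q ∈ T, ENNReal.ofReal (2 * Real.pi * (2 * η)) :=
              Finset.sum_le_sum fun q _ => hausdorff_sphere_le _ (by positivity)
          _ = T.card * ENNReal.ofReal (2 * Real.pi * (2 * η)) := by
              rw [Finset.sum_const, nsmul_eq_mul]

/-- lower bound of the length of a measurable part of the boundary -/
theorem le_part {P Q V : Set ℂ} (hP : IsClosed P) (hneP : P.Nonempty) (hQP : Q ⊆ P)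
    (hQne : Q.Nonempty) (hoff : Disjoint (frontier V) P) (ρ : ℂ → ℝ≥0∞)
    (hlow : ∀ w ∉ P, ENNReal.ofReal (1 / infDist w P) ≤ ρ w) {D : ℝ} (hD : 0 < D)
    (W : Set ℂ) (B : Set ℂ) (hB : B ⊆ frontier V \ closure W) (hBD : ∀ w ∈ B, infDist w Q ≤ D) :
    (Measure.hausdorffMeasure 1 : Measure ℂ) B ≤ ENNReal.ofReal D *
      ∫⁻ w in frontier V \ closure W, ρ w ∂(Measure.hausdorffMeasure 1 : Measure ℂ) := by
  set B' : Set ℂ := (frontier V \ closure W) ∩ {w | infDist w Q ≤ D} with hB'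
  have hmeas : MeasurableSet B' :=
    (isClosed_frontier.measurableSet.diff isClosed_closure.measurableSet).inter
      (isClosed_le (continuous_infDist_pt Q) continuous_const).measurableSet
  have h1 : ENNReal.ofReal (1 / D) * (Measure.hausdorffMeasure 1 : Measure ℂ) B' ≤
      ∫⁻ w in B', ρ w ∂(Measure.hausdorffMeasure 1 : Measure ℂ) := by
    rw [← setLIntegral_const]
    apply setLIntegral_mono' hmeas
    rintro w ⟨⟨hw1, _⟩, hw2⟩
    have hwP : w ∉ P := Set.disjoint_left.1 hoff hw1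
    refine le_trans (ENNReal.ofReal_le_ofReal ?_) (hlow w hwP)
    have h2 : 0 < infDist w P := (hP.notMem_iff_infDist_pos hneP).1 hwP
    have h3 : infDist w P ≤ D := (infDist_le_infDist_of_subset hQP hQne).trans hw2
    exact div_le_div_of_nonneg_left zero_le_one h2 h3
  calc (Measure.hausdorffMeasure 1 : Measure ℂ) B
      ≤ (Measure.hausdorffMeasure 1 : Measure ℂ) B' := measure_mono fun w hw =>
        ⟨hB hw, hBD w hw⟩
    _ = ENNReal.ofReal D * (ENNReal.ofReal (1 / D) *
          (Measure.hausdorffMeasure 1 : Measure ℂ) B') := by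
        rw [← mul_assoc, ← ENNReal.ofReal_mul hD.le, mul_one_div_cancel hD.ne',
          ENNReal.ofReal_one, one_mul]
    _ ≤ ENNReal.ofReal D * ∫⁻ w in frontier V \ closure W, ρ w
          ∂(Measure.hausdorffMeasure 1 : Measure ℂ) := by
        gcongr
        exact h1.trans (lintegral_mono_set inter_subset_left)

end Pool.Agent.H21.CUT
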