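import Pool.Agent.H21.CUT.Cnt

/-!
# The cut lemma (THEOREM H, think 1789 (5), 1804)

`Q` compact, `Q ⊆ P`, and on the collar `{d ≤ dist(., Q) ≤ 2d}` the distance to `P` is at least
`d`. There are `η > 0` and `M < ∞` such that
* every `x ∈ Q` lies in a window `V₀ ⊇ ball x d` of length at most `M`;
* (plain cut) every window `V` with a point `x ∈ V ∩ Q` contains a window `V' ∋ x` inside every
  disc that contains the `2d`-neighbourhood of `Q`, of length at most `len V + M`;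
* (gain) if `V` leaves the `2d`-neighbourhood of `Q` and contains no disc of radius larger than
  `η`, one may choose `V'` with `len V' + 1/32 ≤ len V`.

PROOF. `K` natural, `η = d/(8(K+1))`, lattice `Λ = η ℤ[i]`, `s_k = d + (8k+1) η`,
`W_k` = union of the discs `B(p, 2η)`, `p ∈ Λ`, `dist(p,Q) ≤ s_k`. Then `{dist(.,Q) ≤ s_k - η} ⊆ W_k`,
`closure W_k ⊆ {dist(.,Q) ≤ s_k + 2η}`, and a boundary point of `W_k` is on the circle of a
`p` with `s_k - 3η ≤ dist(p,Q) ≤ s_k`. `V' = fill` (component of `x` in `V ∩ W_k`);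
`frontier V' ⊆ (frontier V ∩ closure W_k) ∪ (V ∩ frontier W_k)`, so
`len V' ≤ len V - R_k + q_k`. `m_k` = number of the `p` used by `V ∩ frontier W_k`:
`q_k ≤ (4/d) 4π η m_k`, and for `j > k` each `p` counted by `m_j` has a point `b` of `frontier V`
within `3η`, and `frontier V ∩ B(b,η)` (length at least `η`) is off `closure W_k`; a point is in at
most `81` of the discs `closedBall p (4η)`: `R_k ≥ (η/(243 d)) n_k`, `n_k = ∑_{k<j≤K} m_j`.
If `q_k > R_k/2` for all `k ≤ K/2` then `n_{k-1} ≥ (1+c') n_k`, so `(1+c')^{K/2}` is at most the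
number of lattice points in `{dist(.,Q) ≤ 2d}`: false for `K` large. And `R_k ≥ 1/16`.
-/

set_option autoImplicit false

open MeasureTheory Metric Set
open scoped ENNReal

namespace Pool.Agent.H21.CUT

/-- the data of the cut lemma -/
private structure Dat (P Q : Set ℂ) (d η : ℝ) (N : ℕ) (ρ : ℂ → ℝ≥0∞) : Prop where
  hd : 0 < d
  hη : 0 < η
  hN : 1 ≤ N
  hdη : d = (16 * N + 8) * η
  hP : IsClosed P
  hQ : IsCompact Q
  hne : Q.Nonempty
  hQP : Q ⊆ P
  hcol : ∀ w, d ≤ infDist w Q → infDist w Q ≤ 2 * d → d ≤ infDist w P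
  hlow : ∀ w ∉ P, ENNReal.ofReal (1 / infDist w P) ≤ ρ w
  hup : ∀ w ∉ P, ρ w ≤ ENNReal.ofReal (4 / infDist w P)

/-- the levels -/
private noncomputable def lev (d η : ℝ) (k : ℕ) : ℝ := d + (8 * k + 1) * η

/-- the cut window -/
private def cw (Q V : Set ℂ) (η s : ℝ) (x : ℂ) : Set ℂ :=
  fill (connectedComponentIn (V ∩ Wd Q η s) x)

private theorem lev_le {P Q : Set ℂ} {d η : ℝ} {N : ℕ} {ρ : ℂ → ℝ≥0∞} (h : Dat P Q d η N ρ)
    {k : ℕ} (hk : k ≤ 2 * N) : lev d η k + 2 * η < 2 * d := by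
  have h1 : (k : ℝ) ≤ 2 * N := by exact_mod_cast hk
  have h2 := h.hη
  have h3 := h.hdη
  simp only [lev]
  nlinarith

private theorem lev_ge {P Q : Set ℂ} {d η : ℝ} {N : ℕ} {ρ : ℂ → ℝ≥0∞} (h : Dat P Q d η N ρ)
    (k : ℕ) : d ≤ lev d η k - η := by
  have h2 := h.hη
  simp only [lev]
  have : (0 : ℝ) ≤ 8 * k * η := by positivity
  linarith

private theorem off_Wd {P Q : Set ℂ} {d η : ℝ} {N : ℕ} {ρ : ℂ → ℝ≥0∞} (h : Dat P Q d η N ρ)
    {k : ℕ} (hk : k ≤ 2 * N) {w : ℂ} (hw : w ∈ frontier (Wd Q η (lev d η k))) : w ∉ P := by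
  obtain ⟨_, _, _, _, h1, h2⟩ := frontier_Wd h.hQ h.hne h.hη hw
  have h3 := h.hcol w (by linarith [lev_ge h k]) (by linarith [lev_le h hk])
  intro h4
  rw [infDist_zero_of_mem h4] at h3
  linarith [h.hd]

private theorem Wd_sub {P Q : Set ℂ} {d η : ℝ} {N : ℕ} {ρ : ℂ → ℝ≥0∞} (h : Dat P Q d η N ρ)
    {k : ℕ} (hk : k ≤ 2 * N) : Wd Q η (lev d η k) ⊆ {w | infDist w Q < 2 * d} := by
  intro w hw
  have := Wd_lt hw
  show infDist w Q < 2 * d
  linarith [lev_le h hk]

private theorem ball_sub {P Q : Set ℂ} {d η : ℝ} {N : ℕ} {ρ : ℂ → ℝ≥0∞} (h : Dat P Q d η N ρ)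
    (k : ℕ) {x : ℂ} (hx : x ∈ Q) : ball x d ⊆ Wd Q η (lev d η k) := by
  intro w hw
  apply mem_Wd h.hη
  have h1 := infDist_le_dist_of_mem (x := w) hx
  rw [mem_ball] at hw
  linarith [lev_ge h k]

private theorem bdd_Wd {P Q : Set ℂ} {d η : ℝ} {N : ℕ} {ρ : ℂ → ℝ≥0∞} (h : Dat P Q d η N ρ)
    {k : ℕ} (hk : k ≤ 2 * N) : Bornology.IsBounded (Wd Q η (lev d η k)) := by
  have h1 : Wd Q η (lev d η k) ⊆ cthickening (2 * d) Q := by
    intro w hw
    have h2 : infDist w Q < 2 * d := Wd_sub h hk hw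
    rw [mem_cthickening_iff]
    have h3 := ENNReal.ofReal_le_ofReal h2.le
    rwa [infDist, ENNReal.ofReal_toReal (infEDist_ne_top h.hne)] at h3
  exact h.hQ.isBounded.cthickening.subset h1

private theorem isOpen_inter {Q V : Set ℂ} (hV : IsOpen V) (η s : ℝ) : IsOpen (V ∩ Wd Q η s) :=
  hV.inter (isOpen_Wd Q η s)

private theorem cw_window {P Q : Set ℂ} {d η : ℝ} {N : ℕ} {ρ : ℂ → ℝ≥0∞} (h : Dat P Q d η N ρ)
    {k : ℕ} (hk : k ≤ 2 * N) {V : Set ℂ} (hV : Window P V) {x : ℂ} (hxV : x ∈ V) (hx : x ∈ Q) :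
    Window P (cw Q V η (lev d η k) x) := by
  refine window_fill (isOpen_inter hV.isOpen _ _) (hV.bdd.subset inter_subset_left)
    ⟨hxV, ball_sub h k hx (mem_ball_self h.hd)⟩ ?_
  intro w hw
  rcases frontier_fill_inter hV.isOpen (isOpen_Wd Q η _) x hw with h1 | h1
  · exact Set.disjoint_left.1 hV.off h1.1
  · exact off_Wd h hk h1.2

private theorem cw_sub {Q V : Set ℂ} (hV : Full V) (η s : ℝ) (x : ℂ) : cw Q V η s x ⊆ V :=
  fill_subset ((connectedComponentIn_subset _ _).trans inter_subset_left) hV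

private theorem cw_small {P Q : Set ℂ} {d η : ℝ} {N : ℕ} {ρ : ℂ → ℝ≥0∞} (h : Dat P Q d η N ρ)
    {k : ℕ} (hk : k ≤ 2 * N) (V : Set ℂ) (x : ℂ) (c : ℂ) (r : ℝ)
    (hcr : {w | infDist w Q < 2 * d} ⊆ ball c r) : cw Q V η (lev d η k) x ⊆ ball c r :=
  fill_subset (((connectedComponentIn_subset _ _).trans inter_subset_right).trans
    ((Wd_sub h hk).trans hcr)) (full_ball c r)

private theorem ball_cw {P Q : Set ℂ} {d η : ℝ} {N : ℕ} {ρ : ℂ → ℝ≥0∞} (h : Dat P Q d η N ρ)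
    (k : ℕ) {V : Set ℂ} {x : ℂ} (hx : x ∈ Q) {r : ℝ} (hr : r ≤ d) (hrV : ball x r ⊆ V) :
    ball x r ⊆ cw Q V η (lev d η k) x := by
  intro w hw
  have hr0 : 0 < r := pos_of_mem_ball hw
  have h1 : ball x r ⊆ V ∩ Wd Q η (lev d η k) :=
    subset_inter hrV ((ball_subset_ball hr).trans (ball_sub h k hx))
  exact subset_fill _ ((convex_ball x r).isPreconnected.subset_connectedComponentIn
    (mem_ball_self hr0) h1 hw)

private theorem mem_cw {P Q : Set ℂ} {d η : ℝ} {N : ℕ} {ρ : ℂ → ℝ≥0∞} (h : Dat P Q d η N ρ)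
    (k : ℕ) {V : Set ℂ} {x : ℂ} (hxV : x ∈ V) (hx : x ∈ Q) : x ∈ cw Q V η (lev d η k) x :=
  subset_fill _ (mem_connectedComponentIn ⟨hxV, ball_sub h k hx (mem_ball_self h.hd)⟩)

/-- the length of the cut window -/
private theorem len_cw_le {Q V : Set ℂ} (hV : IsOpen V) (ρ : ℂ → ℝ≥0∞) (η s : ℝ) (x : ℂ) :
    len ρ (cw Q V η s x) ≤
      ∫⁻ w in frontier V ∩ closure (Wd Q η s), ρ w ∂(Measure.hausdorffMeasure 1 : Measure ℂ) +
      ∫⁻ w in V ∩ frontier (Wd Q η s), ρ w ∂(Measure.hausdorffMeasure 1 : Measure ℂ) := by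
  refine (lintegral_mono_set (frontier_fill_inter hV (isOpen_Wd Q η s) x)).trans ?_
  exact lintegral_union_le _ _ _

private theorem len_split {Q V : Set ℂ} (ρ : ℂ → ℝ≥0∞) (η s : ℝ) : len ρ V =
      ∫⁻ w in frontier V ∩ closure (Wd Q η s), ρ w ∂(Measure.hausdorffMeasure 1 : Measure ℂ) +
      ∫⁻ w in frontier V \ closure (Wd Q η s), ρ w ∂(Measure.hausdorffMeasure 1 : Measure ℂ) :=
  (lintegral_inter_add_diff _ _ isClosed_closure.measurableSet).symm

open Classical in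
/-- the lattice points used by the cut curve -/
private noncomputable def used (Q V : Set ℂ) (d η : ℝ) (B : Finset (ℤ × ℤ)) (k : ℕ) :
    Finset (ℤ × ℤ) :=
  B.filter fun q => ∃ w ∈ V ∩ frontier (Wd Q η (lev d η k)), dist w (pt η q) = 2 * η ∧
    lev d η k - 3 * η ≤ infDist (pt η q) Q ∧ infDist (pt η q) Q ≤ lev d η k

private theorem used_spec {P Q : Set ℂ} {d η : ℝ} {N : ℕ} {ρ : ℂ → ℝ≥0∞} (h : Dat P Q d η N ρ)
    {B : Finset (ℤ × ℤ)} (hB : ∀ q, infDist (pt η q) Q ≤ 2 * d → q ∈ B) {k : ℕ}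
    (hk : k ≤ 2 * N) (V : Set ℂ) {w : ℂ} (hw : w ∈ V ∩ frontier (Wd Q η (lev d η k))) :
    ∃ q ∈ used Q V d η B k, dist w (pt η q) = 2 * η := by
  classical
  obtain ⟨q, h1, h2, h3, h4, h5⟩ := frontier_Wd h.hQ h.hne h.hη hw.2
  refine ⟨q, Finset.mem_filter.2 ⟨hB q (by linarith [lev_le h hk, h.hη]), w, hw, h3, h1, h2⟩, h3⟩

private theorem curve_le {P Q : Set ℂ} {d η : ℝ} {N : ℕ} {ρ : ℂ → ℝ≥0∞} (h : Dat P Q d η N ρ)
    {B : Finset (ℤ × ℤ)} (hB : ∀ q, infDist (pt η q) Q ≤ 2 * d → q ∈ B) {k : ℕ}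
    (hk : k ≤ 2 * N) {V : Set ℂ} (hV : IsOpen V) :
    ∫⁻ w in V ∩ frontier (Wd Q η (lev d η k)), ρ w ∂(Measure.hausdorffMeasure 1 : Measure ℂ) ≤
      ENNReal.ofReal (4 / d) * ((used Q V d η B k).card *
        ENNReal.ofReal (2 * Real.pi * (2 * η))) :=
  cut_curve_le h.hd h.hη hV h.hcol (lev_ge h k) (lev_le h hk).le h.hQ h.hne ρ h.hup _
    fun _ hw => used_spec h hB hk V hw

/-- the points used at the higher levels force length outside the level `k` -/
private theorem many {P Q : Set ℂ} {d η : ℝ} {N : ℕ} {ρ : ℂ → ℝ≥0∞} (h : Dat P Q d η N ρ)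
    {B : Finset (ℤ × ℤ)} {k : ℕ} {V : Set ℂ} (hV : Window P V) {x : ℂ}
    (hxV : x ∈ V) (hx : x ∈ Q) (hin : ∀ c r, ball c r ⊆ V → r ≤ η) (T : Finset (ℤ × ℤ))
    (hT : ∀ q ∈ T, ∃ j, k < j ∧ j ≤ 2 * N ∧ q ∈ used Q V d η B j) :
    (T.card : ℝ≥0∞) * ENNReal.ofReal η ≤ ENNReal.ofReal (243 * d) *
      ∫⁻ w in frontier V \ closure (Wd Q η (lev d η k)), ρ w
        ∂(Measure.hausdorffMeasure 1 : Measure ℂ) := by
  classical
  have hη := h.hη
  have hd := h.hd
  set A : Set ℂ := (frontier V \ closure (Wd Q η (lev d η k))) ∩ {w | infDist w Q ≤ 3 * d}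
    with hA
  have h1 : ∀ q ∈ T, ENNReal.ofReal η ≤
      (Measure.hausdorffMeasure 1 : Measure ℂ) (closedBall (pt η q) (4 * η) ∩ A) := by
    intro q hq
    obtain ⟨j, hkj, hj, hqj⟩ := hT q hq
    obtain ⟨_, w, ⟨hwV, hwW⟩, hwq, _, _⟩ := Finset.mem_filter.1 hqj
    obtain ⟨_, _, _, _, hw1, hw2⟩ := frontier_Wd h.hQ h.hne hη hwW
    obtain ⟨b, hb, hwb⟩ := near_frontier hV.isOpen hV.bdd hin hwV
    have hlj : lev d η k + 8 * η ≤ lev d η j := by
      have : (k : ℝ) + 1 ≤ j := by exact_mod_cast hkj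
      simp only [lev]
      nlinarith
    have hlk := lev_ge h k
    have hlj2 := lev_le h hj
    have hbQ : infDist w Q ≤ infDist b Q + dist w b := infDist_le_add w b
    have hbx : infDist b Q ≤ dist b x := infDist_le_dist_of_mem hx
    have h2 : η ≤ dist x b := by
      rw [dist_comm]
      linarith
    refine (le_hausdorff_frontier hV hb hxV h2).trans (measure_mono ?_)
    rintro u ⟨hu1, hu2⟩
    rw [mem_ball] at hu2
    have hu3 : infDist b Q ≤ infDist u Q + dist b u := infDist_le_add b u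
    have hu4 : infDist u Q ≤ infDist w Q + dist u w := infDist_le_add u w
    have hu5 : dist u w ≤ dist u b + dist b w := dist_triangle u b w
    rw [dist_comm b u] at hu3
    rw [dist_comm b w] at hu5
    have hu6 : dist u (pt η q) ≤ dist u w + dist w (pt η q) := dist_triangle _ _ _
    refine ⟨?_, ⟨hu1, fun hcl => ?_⟩, ?_⟩
    · rw [mem_closedBall]
      linarith
    · have := closure_Wd_le hcl
      linarith
    · show infDist u Q ≤ 3 * d
      linarith
  have h2 := sum_overlap hη (Measure.hausdorffMeasure 1 : Measure ℂ) (B := A) T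
  have h3 : (T.card : ℝ≥0∞) * ENNReal.ofReal η ≤ 81 *
      (Measure.hausdorffMeasure 1 : Measure ℂ) A := by
    refine le_trans ?_ h2
    calc (T.card : ℝ≥0∞) * ENNReal.ofReal η = ∑ _q ∈ T, ENNReal.ofReal η := by
          rw [Finset.sum_const, nsmul_eq_mul]
      _ ≤ _ := Finset.sum_le_sum h1
  have h4 := le_part h.hP (h.hne.mono h.hQP) h.hQP h.hne hV.off ρ h.hlow (D := 3 * d)
    (by positivity) (Wd Q η (lev d η k)) A inter_subset_left fun w hw => hw.2
  refine h3.trans ?_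
  calc (81 : ℝ≥0∞) * (Measure.hausdorffMeasure 1 : Measure ℂ) A
      ≤ 81 * (ENNReal.ofReal (3 * d) * ∫⁻ w in frontier V \ closure (Wd Q η (lev d η k)), ρ w
        ∂(Measure.hausdorffMeasure 1 : Measure ℂ)) := by gcongr
    _ = ENNReal.ofReal (243 * d) * ∫⁻ w in frontier V \ closure (Wd Q η (lev d η k)), ρ w
        ∂(Measure.hausdorffMeasure 1 : Measure ℂ) := by
        rw [← mul_assoc]
        congr 1
        rw [show (243 * d : ℝ) = 81 * (3 * d) by ring,
          ENNReal.ofReal_mul (by norm_num : (0 : ℝ) ≤ 81)]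
        norm_num

/-- the part of the boundary outside the first half of the levels is long -/
private theorem outside {P Q : Set ℂ} {d η : ℝ} {N : ℕ} {ρ : ℂ → ℝ≥0∞} (h : Dat P Q d η N ρ)
    {k : ℕ} (hk : k ≤ N) {V : Set ℂ} (hV : Window P V) {x z : ℂ} (hxV : x ∈ V) (hx : x ∈ Q)
    (hzV : z ∈ V) (hz : 2 * d ≤ infDist z Q) (hin : ∀ c r, ball c r ⊆ V → r ≤ η) :
    ENNReal.ofReal (1 / 16) ≤ ∫⁻ w in frontier V \ closure (Wd Q η (lev d η k)), ρ w
        ∂(Measure.hausdorffMeasure 1 : Measure ℂ) := by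
  have hη := h.hη
  have hd := h.hd
  have hN : (1 : ℝ) ≤ N := by exact_mod_cast h.hN
  have hkN : (k : ℝ) ≤ N := by exact_mod_cast hk
  have hdη : 24 * η ≤ d := by
    rw [h.hdη]
    nlinarith
  obtain ⟨y, hyV, hy⟩ := hV.conn.isPreconnected.intermediate_value hxV hzV
    (f := fun w => infDist w Q) (continuous_infDist_pt Q).continuousOn
    (show 7 / 4 * d ∈ Icc (infDist x Q) (infDist z Q) from
      ⟨by rw [infDist_zero_of_mem hx]; positivity, by linarith⟩)
  have hy' : infDist y Q = 7 / 4 * d := hy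
  obtain ⟨b, hb, hyb⟩ := near_frontier hV.isOpen hV.bdd hin hyV
  have hbQ : infDist y Q ≤ infDist b Q + dist y b := infDist_le_add y b
  have hbx : infDist b Q ≤ dist b x := infDist_le_dist_of_mem hx
  have h2 : d / 8 ≤ dist x b := by
    rw [dist_comm]
    linarith
  have h3 := le_hausdorff_frontier hV hb hxV h2
  have h4 := le_part h.hP (h.hne.mono h.hQP) h.hQP h.hne hV.off ρ h.hlow (D := 2 * d)
    (by positivity) (Wd Q η (lev d η k)) (frontier V ∩ ball b (d / 8)) (by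
      rintro u ⟨hu1, hu2⟩
      refine ⟨hu1, fun hcl => ?_⟩
      rw [mem_ball] at hu2
      have hu3 : infDist b Q ≤ infDist u Q + dist b u := infDist_le_add b u
      rw [dist_comm b u] at hu3
      have hu4 := closure_Wd_le hcl
      have hu5 : lev d η k + 2 * η ≤ 3 / 2 * d := by
        simp only [lev]
        have := h.hdη
        nlinarith
      linarith) (by
      rintro u ⟨_, hu2⟩
      rw [mem_ball] at hu2
      have hu3 : infDist u Q ≤ infDist y Q + dist u y := infDist_le_add u y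
      have hu4 : dist u y ≤ dist u b + dist b y := dist_triangle u b y
      rw [dist_comm b y] at hu4
      linarith)
  have h5 := h3.trans h4
  set I := ∫⁻ w in frontier V \ closure (Wd Q η (lev d η k)), ρ w
        ∂(Measure.hausdorffMeasure 1 : Measure ℂ) with hI
  by_contra hcon
  push Not at hcon
  have h6 : ENNReal.ofReal (2 * d) * I < ENNReal.ofReal (2 * d) * ENNReal.ofReal (1 / 16) := by
    apply (ENNReal.mul_lt_mul_iff_right _ ENNReal.ofReal_ne_top).2 hcon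
    exact (ENNReal.ofReal_pos.2 (by positivity)).ne'
  rw [← ENNReal.ofReal_mul (by positivity)] at h6
  have h7 := h5.trans_lt h6
  rw [show 2 * d * (1 / 16) = d / 8 by ring] at h7
  exact lt_irrefl _ h7

/-- there is a good level -/
private theorem good_level {P Q : Set ℂ} {d η : ℝ} {N : ℕ} {ρ : ℂ → ℝ≥0∞}
    (h : Dat P Q d η N ρ) {B : Finset (ℤ × ℤ)}
    (hB : ∀ q, infDist (pt η q) Q ≤ 2 * d → q ∈ B)
    (hBc : (B.card : ℝ) < (1 + 1 / 25000 : ℝ) ^ N)
    {V : Set ℂ} (hV : Window P V) {x z : ℂ} (hxV : x ∈ V) (hx : x ∈ Q)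
    (hzV : z ∈ V) (hz : 2 * d ≤ infDist z Q) (hin : ∀ c r, ball c r ⊆ V → r ≤ η) :
    ∃ k ≤ N, 2 * ∫⁻ w in V ∩ frontier (Wd Q η (lev d η k)), ρ w
        ∂(Measure.hausdorffMeasure 1 : Measure ℂ) ≤
      ∫⁻ w in frontier V \ closure (Wd Q η (lev d η k)), ρ w
        ∂(Measure.hausdorffMeasure 1 : Measure ℂ) := by
  classical
  by_contra hcon
  push Not at hcon
  have hη := h.hη
  have hd := h.hd
  set m : ℕ → ℕ := fun k => (used Q V d η B k).card with hm
  -- disjointness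
  have hdisj : ∀ i j : ℕ, i ≠ j → Disjoint (used Q V d η B i) (used Q V d η B j) := by
    have key : ∀ i j : ℕ, i < j → Disjoint (used Q V d η B i) (used Q V d η B j) := by
      intro i j hij
      rw [Finset.disjoint_left]
      intro q hq1 hq2
      obtain ⟨_, _, _, _, _, h1⟩ := Finset.mem_filter.1 hq1
      obtain ⟨_, _, _, _, h2, _⟩ := Finset.mem_filter.1 hq2
      have h3 : (i : ℝ) + 1 ≤ j := by exact_mod_cast hij
      simp only [lev] at h1 h2
      nlinarith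
    intro i j hij
    rcases lt_or_gt_of_ne hij with h1 | h1
    · exact key i j h1
    · exact (key j i h1).symm
  have hsum : ∀ k : ℕ, ∑ j ∈ Finset.Ioc k (2 * N), m j =
      ((Finset.Ioc k (2 * N)).biUnion fun j => used Q V d η B j).card := by
    intro k
    rw [Finset.card_biUnion]
    intro i _ j _ hij
    exact hdisj i j hij
  have h1 : 1 ≤ m (2 * N) := by
    have h2 : (V ∩ frontier (Wd Q η (lev d η (2 * N)))).Nonempty := by
      apply meets_frontier hV.conn.isPreconnected (isOpen_Wd Q η _)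
      · exact ⟨x, hxV, ball_sub h _ hx (mem_ball_self hd)⟩
      · refine ⟨z, hzV, fun hzW => ?_⟩
        have := Wd_sub h le_rfl hzW
        have h3 : infDist z Q < 2 * d := this
        linarith
    obtain ⟨w, hw⟩ := h2
    obtain ⟨q, hq, _⟩ := used_spec h hB le_rfl V hw
    exact Finset.card_pos.2 ⟨q, hq⟩
  have h2 : ∀ k ≤ N, ∑ j ∈ Finset.Ioc k (2 * N), m j ≤ 25000 * m k := by
    intro k hk
    rw [hsum]
    set T := (Finset.Ioc k (2 * N)).biUnion fun j => used Q V d η B j with hT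
    have h3 := many h hV hxV hx hin (B := B) (k := k) T (by
      intro q hq
      obtain ⟨j, hj, hqj⟩ := Finset.mem_biUnion.1 hq
      obtain ⟨hj1, hj2⟩ := Finset.mem_Ioc.1 hj
      exact ⟨j, hj1, hj2, hqj⟩)
    have h4 := curve_le h hB (hk.trans (by omega)) hV.isOpen
    have h5 := (hcon k hk).le
    have h6 : (T.card : ℝ≥0∞) * ENNReal.ofReal η ≤ ENNReal.ofReal (243 * d) * (2 *
        (ENNReal.ofReal (4 / d) * ((m k : ℝ≥0∞) * ENNReal.ofReal (2 * Real.pi * (2 * η))))) :=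
      h3.trans (by gcongr; exact h5.trans (by gcongr))
    have h7 : (T.card : ℝ) * η ≤ 243 * d * (2 * (4 / d * (m k * (2 * Real.pi * (2 * η))))) := by
      have h8 : ENNReal.ofReal ((T.card : ℝ) * η) ≤
          ENNReal.ofReal (243 * d * (2 * (4 / d * (m k * (2 * Real.pi * (2 * η)))))) := by
        rw [ENNReal.ofReal_mul (p := (T.card : ℝ)) (Nat.cast_nonneg _), ENNReal.ofReal_natCast,
          ENNReal.ofReal_mul (p := 243 * d) (by positivity),
          ENNReal.ofReal_mul (p := 2) (by norm_num),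
          ENNReal.ofReal_mul (p := 4 / d) (by positivity),
          ENNReal.ofReal_mul (p := (m k : ℝ)) (Nat.cast_nonneg _),
          ENNReal.ofReal_natCast, ENNReal.ofReal_ofNat]
        exact h6
      exact (ENNReal.ofReal_le_ofReal_iff (by positivity)).1 h8
    have h8 : 243 * d * (2 * (4 / d * (m k * (2 * Real.pi * (2 * η))))) =
        7776 * Real.pi * m k * η := by
      field_simp
      ring
    rw [h8] at h7
    have h9 : (T.card : ℝ) ≤ 7776 * Real.pi * m k := le_of_mul_le_mul_right h7 hη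
    have h10 : (T.card : ℝ) ≤ 25000 * m k := by
      refine h9.trans ?_
      have := Real.pi_lt_d2
      have h11 : 7776 * Real.pi ≤ 25000 := by linarith
      exact mul_le_mul_of_nonneg_right h11 (Nat.cast_nonneg _)
    exact_mod_cast h10
  have h3 := growth N h.hN m h2 h1
  have h4 : ∑ j ∈ Finset.Ioc 0 (2 * N), m j ≤ B.card := by
    rw [hsum]
    apply Finset.card_le_card
    intro q hq
    obtain ⟨j, _, hqj⟩ := Finset.mem_biUnion.1 hq
    exact (Finset.mem_filter.1 hqj).1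
  have h5 : ((∑ j ∈ Finset.Ioc 0 (2 * N), m j : ℕ) : ℝ) ≤ B.card := by exact_mod_cast h4
  linarith

theorem cut {P Q : Set ℂ} {d : ℝ} (hd : 0 < d) (hP : IsClosed P) (hQ : IsCompact Q)
    (hne : Q.Nonempty) (hQP : Q ⊆ P)
    (hcol : ∀ w, d ≤ infDist w Q → infDist w Q ≤ 2 * d → d ≤ infDist w P)
    (ρ : ℂ → ℝ≥0∞) (hlow : ∀ w ∉ P, ENNReal.ofReal (1 / infDist w P) ≤ ρ w)
    (hup : ∀ w ∉ P, ρ w ≤ ENNReal.ofReal (4 / infDist w P)) :
    ∃ η : ℝ, 0 < η ∧ ∃ M : ℝ≥0∞, M ≠ ⊤ ∧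
      (∀ x ∈ Q, ∃ V₀, Window P V₀ ∧ ball x d ⊆ V₀ ∧ len ρ V₀ ≤ M ∧
        ∀ c r, {w | infDist w Q < 2 * d} ⊆ ball c r → V₀ ⊆ ball c r) ∧
      (∀ V, Window P V → ∀ x ∈ V, x ∈ Q → ∃ V', Window P V' ∧ x ∈ V' ∧ V' ⊆ V ∧
        (∀ c r, {w | infDist w Q < 2 * d} ⊆ ball c r → V' ⊆ ball c r) ∧
        (∀ r ≤ d, ball x r ⊆ V → ball x r ⊆ V') ∧ len ρ V' ≤ len ρ V + M) ∧
      (∀ V, Window P V → ∀ x ∈ V, x ∈ Q → (∃ z ∈ V, 2 * d ≤ infDist z Q) →
        (∀ c r, ball c r ⊆ V → r ≤ η) → ∃ V', Window P V' ∧ x ∈ V' ∧ V' ⊆ V ∧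
        (∀ c r, {w | infDist w Q < 2 * d} ⊆ ball c r → V' ⊆ ball c r) ∧
        (∀ r ≤ d, ball x r ⊆ V → ball x r ⊆ V') ∧ len ρ V' + 1 / 32 ≤ len ρ V) := by
  classical
  obtain ⟨R, hR0, hR⟩ := hQ.isBounded.exists_pos_norm_le
  set A : ℝ := 16 * (R + 2 * d) / d + 1 with hA
  obtain ⟨N, hN1, hN2⟩ := exists_N A
  set η : ℝ := d / (16 * N + 8) with hη'
  have hη : 0 < η := by positivity
  have hdη : d = (16 * N + 8) * η := by
    rw [hη']
    field_simp
  have h : Dat P Q d η N ρ := ⟨hd, hη, hN1, hdη, hP, hQ, hne, hQP, hcol, hlow, hup⟩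
  obtain ⟨B, hB1, hB2⟩ := exists_box (η := η) (R := R + 2 * d) hη (by positivity)
  have hB : ∀ q, infDist (pt η q) Q ≤ 2 * d → q ∈ B := by
    intro q hq
    apply hB1
    obtain ⟨u, hu, hu1⟩ := hQ.exists_infDist_eq_dist hne (pt η q)
    rw [hu1, dist_eq_norm] at hq
    have h2 := hR u hu
    have h3 : ‖pt η q‖ ≤ ‖pt η q - u‖ + ‖u‖ := by
      simpa using norm_add_le (pt η q - u) u
    linarith
  have hBc : (B.card : ℝ) < (1 + 1 / 25000 : ℝ) ^ N := by
    refine hB2.trans_lt (lt_of_le_of_lt ?_ hN2)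
    have hN3 : (0 : ℝ) ≤ N := Nat.cast_nonneg _
    have h1 : 2 * (R + 2 * d) / η + 1 ≤ A * (2 * N + 1) := by
      rw [hη', hA, div_div_eq_mul_div]
      have h2 : 2 * (R + 2 * d) * (16 * (N : ℝ) + 8) / d =
          16 * (R + 2 * d) / d * (2 * N + 1) := by
        field_simp
        ring
      rw [h2]
      nlinarith
    have h2 : 0 ≤ 2 * (R + 2 * d) / η + 1 := by positivity
    exact pow_le_pow_left₀ h2 h1 2
  set M : ℝ≥0∞ := ENNReal.ofReal (4 / d) * ((B.card : ℝ≥0∞) *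
    ENNReal.ofReal (2 * Real.pi * (2 * η))) with hM
  have hMk : ∀ V : Set ℂ, IsOpen V → ∀ k ≤ 2 * N,
      ∫⁻ w in V ∩ frontier (Wd Q η (lev d η k)), ρ w
        ∂(Measure.hausdorffMeasure 1 : Measure ℂ) ≤ M := by
    intro V hV k hk
    refine (curve_le h hB hk hV).trans ?_
    rw [hM]
    gcongr
    exact Finset.filter_subset _ _
  refine ⟨η, hη, M, ?_, ?_, ?_, ?_⟩
  · rw [hM]
    exact ENNReal.mul_ne_top ENNReal.ofReal_ne_top
      (ENNReal.mul_ne_top (ENNReal.natCast_ne_top _) ENNReal.ofReal_ne_top)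
  · intro x hx
    have hxW : x ∈ Wd Q η (lev d η 0) := ball_sub h 0 hx (mem_ball_self hd)
    have h1 : frontier (fill (connectedComponentIn (Wd Q η (lev d η 0)) x)) ⊆
        univ ∩ frontier (Wd Q η (lev d η 0)) := by
      rw [univ_inter]
      exact frontier_fill_comp (isOpen_Wd Q η _) x
    refine ⟨fill (connectedComponentIn (Wd Q η (lev d η 0)) x),
      window_fill (isOpen_Wd Q η _) (bdd_Wd h (Nat.zero_le _)) hxW
        fun w hw => off_Wd h (Nat.zero_le _) (h1 hw).2, ?_, ?_, ?_⟩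
    · exact ((convex_ball x d).isPreconnected.subset_connectedComponentIn
        (mem_ball_self hd) (ball_sub h 0 hx)).trans (subset_fill _)
    · exact (lintegral_mono_set h1).trans (hMk univ isOpen_univ 0 (Nat.zero_le _))
    · intro c r hcr
      exact fill_subset ((connectedComponentIn_subset _ _).trans
        ((Wd_sub h (Nat.zero_le _)).trans hcr)) (full_ball c r)
  · intro V hV x hxV hx
    refine ⟨cw Q V η (lev d η 0) x, cw_window h (Nat.zero_le _) hV hxV hx, mem_cw h 0 hxV hx,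
      cw_sub hV.full _ _ _, cw_small h (Nat.zero_le _) V x, fun r hr hrV =>
      ball_cw h 0 hx hr hrV, ?_⟩
    refine (len_cw_le hV.isOpen ρ η _ x).trans ?_
    gcongr
    · exact lintegral_mono_set inter_subset_left
    · exact hMk V hV.isOpen 0 (Nat.zero_le _)
  · rintro V hV x hxV hx ⟨z, hzV, hz⟩ hin
    obtain ⟨k, hk, hgood⟩ := good_level h hB hBc hV hxV hx hzV hz hin
    have hk2 : k ≤ 2 * N := hk.trans (by omega)
    refine ⟨cw Q V η (lev d η k) x, cw_window h hk2 hV hxV hx, mem_cw h k hxV hx,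
      cw_sub hV.full _ _ _, cw_small h hk2 V x, fun r hr hrV => ball_cw h k hx hr hrV, ?_⟩
    have h1 := len_cw_le (Q := Q) hV.isOpen ρ η (lev d η k) x
    have h2 := len_split (Q := Q) (V := V) ρ η (lev d η k)
    have h3 := outside h hk hV hxV hx hzV hz hin
    set a := ∫⁻ w in frontier V ∩ closure (Wd Q η (lev d η k)), ρ w
      ∂(Measure.hausdorffMeasure 1 : Measure ℂ)
    set q := ∫⁻ w in V ∩ frontier (Wd Q η (lev d η k)), ρ w
      ∂(Measure.hausdorffMeasure 1 : Measure ℂ)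
    set R' := ∫⁻ w in frontier V \ closure (Wd Q η (lev d η k)), ρ w
      ∂(Measure.hausdorffMeasure 1 : Measure ℂ)
    have h4 : q + 1 / 32 ≤ R' := by
      have h5 : 2 * (q + 1 / 32) ≤ 2 * R' := by
        have h6 : ENNReal.ofReal (1 / 16) = 2 * (1 / 32) := by
          rw [show (1 / 16 : ℝ) = 2 * (1 / 32) by norm_num,
            ENNReal.ofReal_mul (by norm_num), ENNReal.ofReal_div_of_pos (by norm_num)]
          norm_num
        rw [mul_add, two_mul R', ← h6]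
        exact add_le_add hgood h3
      exact (ENNReal.mul_le_mul_iff_right (by norm_num) (by norm_num)).1 h5
    rw [h2]
    calc len ρ (cw Q V η (lev d η k) x) + 1 / 32 ≤ a + q + 1 / 32 := by gcongr
      _ = a + (q + 1 / 32) := by rw [add_assoc]
      _ ≤ a + R' := by gcongr

end Pool.Agent.H21.CUT
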