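import Mathlib

/-!
Windows in the plane (THEOREM H, think 1789, 1800, 1804): open connected bounded sets without
holes, whose boundary is off a closed set `P`, and the length of the boundary for a density `ρ`.
-/

set_option autoImplicit false

open MeasureTheory Metric Set
open scoped ENNReal

namespace Pool.Agent.H21.CUT

/-- every bounded open set whose boundary lies in `V` lies in `V` (`V` has no holes) -/
def Full (V : Set ℂ) : Prop :=
  ∀ O : Set ℂ, IsOpen O → Bornology.IsBounded O → frontier O ⊆ V → O ⊆ V

/-- a window: open, connected, bounded, without holes, boundary off `P` -/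
structure Window (P V : Set ℂ) : Prop where
  isOpen : IsOpen V
  conn : IsConnected V
  bdd : Bornology.IsBounded V
  full : Full V
  off : Disjoint (frontier V) P

/-- length of the boundary for the density `ρ` -/
noncomputable def len (ρ : ℂ → ℝ≥0∞) (V : Set ℂ) : ℝ≥0∞ :=
  ∫⁻ w in frontier V, ρ w ∂(Measure.hausdorffMeasure 1 : Measure ℂ)

/-- `E` with its holes filled -/
def fill (E : Set ℂ) : Set ℂ :=
  E ∪ ⋃₀ {O : Set ℂ | IsOpen O ∧ Bornology.IsBounded O ∧ frontier O ⊆ E}

end Pool.Agent.H21.CUT
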