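import Pool.Agent.H21.CUT.Basic

/-!
Unions of discs centred at lattice points: the level sets of the cut lemma.
-/

set_option autoImplicit false

open MeasureTheory Metric Set
open scoped ENNReal

namespace Pool.Agent.H21.CUT

/-- lattice points -/
def pt (η : ℝ) (q : ℤ × ℤ) : ℂ := ⟨η * q.1, η * q.2⟩

theorem exists_pt {η : ℝ} (hη : 0 < η) (w : ℂ) : ∃ q : ℤ × ℤ, dist w (pt η q) ≤ η := by
  refine ⟨(round (w.re / η), round (w.im / η)), ?_⟩
  rw [dist_eq_norm]
  refine (Complex.norm_le_abs_re_add_abs_im _).trans ?_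
  have key : ∀ a : ℝ, |a - η * (round (a / η) : ℤ)| ≤ η / 2 := by
    intro a
    have h := abs_sub_round (a / η)
    have h1 : a - η * (round (a / η) : ℤ) = η * (a / η - (round (a / η) : ℤ)) := by
      field_simp
    rw [h1, abs_mul, abs_of_pos hη]
    nlinarith
  have h1 := key w.re
  have h2 := key w.im
  simp only [pt, Complex.sub_re, Complex.sub_im]
  linarith

theorem card_interval {a : ℝ} (T : Finset ℤ) (hT : ∀ m ∈ T, |a - m| ≤ 4) : T.card ≤ 9 := by
  have h1 : T ⊆ Finset.Icc ⌈a - 4⌉ ⌊a + 4⌋ := by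
    intro m hm
    have h := abs_le.1 (hT m hm)
    rw [Finset.mem_Icc]
    exact ⟨Int.ceil_le.2 (by linarith), Int.le_floor.2 (by linarith)⟩
  refine (Finset.card_le_card h1).trans ?_
  rw [Int.card_Icc]
  have h2 : ⌊a + 4⌋ + 1 - ⌈a - 4⌉ ≤ 9 := by
    have h3 := Int.floor_le (a + 4)
    have h4 := Int.le_ceil (a - 4)
    have h5 : ((⌊a + 4⌋ - ⌈a - 4⌉ : ℤ) : ℝ) ≤ 8 := by
      push_cast
      linarith
    have h6 : ⌊a + 4⌋ - ⌈a - 4⌉ ≤ 8 := by exact_mod_cast h5
    omega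
  omega

theorem card_near {η : ℝ} (hη : 0 < η) (w : ℂ) (T : Finset (ℤ × ℤ))
    (hT : ∀ q ∈ T, dist w (pt η q) ≤ 4 * η) : T.card ≤ 81 := by
  have h1 : T ⊆ (T.image Prod.fst) ×ˢ (T.image Prod.snd) := Finset.subset_product
  have key : ∀ q ∈ T, |w.re / η - q.1| ≤ 4 ∧ |w.im / η - q.2| ≤ 4 := by
    intro q hq
    have h := hT q hq
    rw [dist_eq_norm] at h
    have h2 := (Complex.abs_re_le_norm (w - pt η q)).trans h
    have h3 := (Complex.abs_im_le_norm (w - pt η q)).trans h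
    simp only [pt, Complex.sub_re, Complex.sub_im] at h2 h3
    constructor
    · have : w.re - η * q.1 = η * (w.re / η - q.1) := by field_simp
      rw [this, abs_mul, abs_of_pos hη] at h2
      nlinarith
    · have : w.im - η * q.2 = η * (w.im / η - q.2) := by field_simp
      rw [this, abs_mul, abs_of_pos hη] at h3
      nlinarith
  have h2 : (T.image Prod.fst).card ≤ 9 := by
    apply card_interval (a := w.re / η)
    intro m hm
    obtain ⟨q, hq, rfl⟩ := Finset.mem_image.1 hm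
    exact (key q hq).1
  have h3 : (T.image Prod.snd).card ≤ 9 := by
    apply card_interval (a := w.im / η)
    intro m hm
    obtain ⟨q, hq, rfl⟩ := Finset.mem_image.1 hm
    exact (key q hq).2
  calc T.card ≤ ((T.image Prod.fst) ×ˢ (T.image Prod.snd)).card := Finset.card_le_card h1
    _ = (T.image Prod.fst).card * (T.image Prod.snd).card := Finset.card_product _ _
    _ ≤ 9 * 9 := Nat.mul_le_mul h2 h3
    _ = 81 := rfl

theorem exists_box {η R : ℝ} (hη : 0 < η) (hR : 0 ≤ R) :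
    ∃ B : Finset (ℤ × ℤ), (∀ q, ‖pt η q‖ ≤ R → q ∈ B) ∧ (B.card : ℝ) ≤ (2 * R / η + 1) ^ 2 := by
  refine ⟨Finset.Icc (-⌊R / η⌋) ⌊R / η⌋ ×ˢ Finset.Icc (-⌊R / η⌋) ⌊R / η⌋, ?_, ?_⟩
  · intro q hq
    have h2 := (Complex.abs_re_le_norm (pt η q)).trans hq
    have h3 := (Complex.abs_im_le_norm (pt η q)).trans hq
    simp only [pt] at h2 h3
    have key : ∀ m : ℤ, |η * m| ≤ R → m ∈ Finset.Icc (-⌊R / η⌋) ⌊R / η⌋ := by
      intro m hm
      rw [abs_mul, abs_of_pos hη] at hm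
      have h4 : |(m : ℝ)| ≤ R / η := by
        rw [le_div_iff₀ hη]
        linarith
      have h5 := abs_le.1 h4
      rw [Finset.mem_Icc]
      constructor
      · rw [neg_le]
        exact Int.le_floor.2 (by push_cast; linarith)
      · exact Int.le_floor.2 h5.2
    exact Finset.mem_product.2 ⟨key _ h2, key _ h3⟩
  · rw [Finset.card_product, Int.card_Icc]
    have h0 : 0 ≤ ⌊R / η⌋ := Int.floor_nonneg.2 (by positivity)
    have h1 : (((⌊R / η⌋ + 1 - -⌊R / η⌋).toNat : ℕ) : ℝ) ≤ 2 * R / η + 1 := by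
      have h2 : (((⌊R / η⌋ + 1 - -⌊R / η⌋).toNat : ℕ) : ℤ) = 2 * ⌊R / η⌋ + 1 := by
        rw [Int.toNat_of_nonneg (by omega)]
        ring
      have h3 : (((⌊R / η⌋ + 1 - -⌊R / η⌋).toNat : ℕ) : ℝ) = 2 * (⌊R / η⌋ : ℝ) + 1 := by
        exact_mod_cast h2
      rw [h3]
      have h4 := Int.floor_le (R / η)
      have h5 : 2 * R / η = 2 * (R / η) := by ring
      rw [h5]
      linarith
    push_cast
    rw [sq]
    exact mul_le_mul h1 h1 (Nat.cast_nonneg _) (by positivity)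

/-- union of the discs of radius `2η` centred at the lattice points with distance at most `s`
from `Q` -/
def Wd (Q : Set ℂ) (η s : ℝ) : Set ℂ :=
  ⋃ q ∈ {q : ℤ × ℤ | infDist (pt η q) Q ≤ s}, ball (pt η q) (2 * η)

theorem isOpen_Wd (Q : Set ℂ) (η s : ℝ) : IsOpen (Wd Q η s) :=
  isOpen_biUnion fun _ _ => isOpen_ball

theorem infDist_le_add {Q : Set ℂ} (u v : ℂ) : infDist u Q ≤ infDist v Q + dist u v :=
  infDist_le_infDist_add_dist

theorem mem_Wd {Q : Set ℂ} {η s : ℝ} (hη : 0 < η) {w : ℂ} (hw : infDist w Q ≤ s - η) :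
    w ∈ Wd Q η s := by
  obtain ⟨q, hq⟩ := exists_pt hη w
  refine mem_iUnion₂.2 ⟨q, ?_, ?_⟩
  · have := infDist_le_add (Q := Q) (pt η q) w
    rw [dist_comm] at this
    show infDist (pt η q) Q ≤ s
    linarith
  · rw [mem_ball]
    linarith

theorem Wd_lt {Q : Set ℂ} {η s : ℝ} {w : ℂ} (hw : w ∈ Wd Q η s) : infDist w Q < s + 2 * η := by
  obtain ⟨q, hq1, hq2⟩ := mem_iUnion₂.1 hw
  have := infDist_le_add (Q := Q) w (pt η q)
  rw [mem_ball] at hq2
  have hq3 : infDist (pt η q) Q ≤ s := hq1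
  linarith

theorem closure_Wd_le {Q : Set ℂ} {η s : ℝ} {w : ℂ} (hw : w ∈ closure (Wd Q η s)) :
    infDist w Q ≤ s + 2 * η := by
  have h1 : IsClosed {w : ℂ | infDist w Q ≤ s + 2 * η} :=
    isClosed_le (continuous_infDist_pt Q) continuous_const
  exact (closure_minimal (fun u hu => (Wd_lt hu).le) h1) hw

theorem finite_pts {Q : Set ℂ} (hQ : IsCompact Q) (hne : Q.Nonempty) {η : ℝ} (hη : 0 < η)
    (s : ℝ) : {q : ℤ × ℤ | infDist (pt η q) Q ≤ s}.Finite := by
  obtain ⟨R, hR0, hR⟩ := hQ.isBounded.exists_pos_norm_le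
  obtain ⟨B, hB, _⟩ := exists_box (η := η) (R := R + |s|) hη (by positivity)
  refine B.finite_toSet.subset fun q hq => ?_
  apply hB
  obtain ⟨u, hu, hd⟩ := hQ.exists_infDist_eq_dist hne (pt η q)
  have h1 : infDist (pt η q) Q ≤ s := hq
  rw [hd, dist_eq_norm] at h1
  have h2 := hR u hu
  have h3 : ‖pt η q‖ ≤ ‖pt η q - u‖ + ‖u‖ := by
    simpa using norm_add_le (pt η q - u) u
  have h4 := le_abs_self s
  linarith

theorem frontier_Wd {Q : Set ℂ} (hQ : IsCompact Q) (hne : Q.Nonempty) {η s : ℝ} (hη : 0 < η)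
    {w : ℂ} (hw : w ∈ frontier (Wd Q η s)) : ∃ q : ℤ × ℤ, s - 3 * η ≤ infDist (pt η q) Q ∧
      infDist (pt η q) Q ≤ s ∧ dist w (pt η q) = 2 * η ∧ s - η ≤ infDist w Q ∧
      infDist w Q ≤ s + 2 * η := by
  rw [(isOpen_Wd Q η s).frontier_eq] at hw
  obtain ⟨h1, h2⟩ := hw
  have h3 := closure_Wd_le h1
  have h4 : s - η ≤ infDist w Q := by
    by_contra hcon
    push Not at hcon
    exact h2 (mem_Wd hη hcon.le)
  rw [Wd, (finite_pts hQ hne hη s).closure_biUnion] at h1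
  obtain ⟨q, hq1, hq2⟩ := mem_iUnion₂.1 h1
  have hq3 : infDist (pt η q) Q ≤ s := hq1
  rw [closure_ball _ (by positivity : (2 * η) ≠ 0), mem_closedBall] at hq2
  have hq4 : 2 * η ≤ dist w (pt η q) := by
    by_contra hcon
    push Not at hcon
    exact h2 (mem_iUnion₂.2 ⟨q, hq1, hcon⟩)
  have hq5 := le_antisymm hq2 hq4
  have h5 := infDist_le_add (Q := Q) w (pt η q)
  exact ⟨q, by linarith, hq3, hq5, h4, h3⟩

end Pool.Agent.H21.CUT
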